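import Mathlib
import Pool.Agent.Lib.MP_9a6b8c_lc.Contig
import Pool.Agent.Lib.MP_9a6b8c_lc.Distinct
import Pool.Agent.Lib.MP_9a6b8c_lc.Dekker

/-! Positive answer to Watson's question on contiguous degrees for e-reducibilities:
the pair (partial many-one reducibility, pc-reducibility). -/

namespace Pool.Agent.Results.MP_9a6b8c_lc.PmContiguousPcDegrees

open Pool.Agent.Lib.MP_9a6b8c_lc

/-- Partial many-one reducibility `≤_pm` (operators that are both `s`- and `pc`-operators) and
`≤_pc` are distinct proper e-reducibilities with `≤_pm ⊆ ≤_pc`, and for every semirecursive set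
`A` that is not r.e. the `pc`-degree of `A` is `pm`-contiguous; such sets exist, even co-r.e. -/
theorem result :
    (IsEReducibility pmOps ∧ IsProper pmOps) ∧ (IsEReducibility pcOps ∧ IsProper pcOps) ∧
    (∀ A B : Set ℕ, Red pmOps A B → Red pcOps A B) ∧
    (∃ A B : Set ℕ, Red pcOps A B ∧ ¬ Red pmOps A B) ∧
    (∀ A : Set ℕ, Semirecursive A → ¬ (REPred fun n => n ∈ A) →
      IsContiguous pmOps pcOps (deg pcOps A)) ∧
    (∃ A : Set ℕ, Semirecursive A ∧ (REPred fun n => n ∈ Aᶜ) ∧ ¬ REPred fun n => n ∈ A) :=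
  ⟨⟨isEReducibility_pm, isProper_pm⟩, ⟨isEReducibility_pc, isProper_pc⟩,
    fun _ _ h => pm_sub_pc h, exists_pc_not_pm,
    fun _ hA hre => contiguous_of_semirecursive hA hre, exists_semirecursive⟩

end Pool.Agent.Results.MP_9a6b8c_lc.PmContiguousPcDegrees
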